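import Mathlib
import Pool.Agent.N879.GD.Stm

set_option autoImplicit false

/-!
Project GZ, package INT: integrability of the weighted products.
-/

namespace Pool.Agent.U941.GZ

open Complex Filter Topology MeasureTheory Set
open Pool.Agent.N879.GD
open Pool.Agent.Y969.GP (ff)

theorem D0_bound (l T r : ℝ) (hl : 0 < l) (hT : 0 < T) (hr : 0 < r) :
    ∃ C : ℝ, 0 ≤ C ∧ ∀ t ∈ Ioc 0 T, |D0 (l * t)| ≤ C * t ^ (-r) := by
  set c1 := |Real.log (l / (2 * Real.pi)) + 2 * Real.eulerMascheroniConstant| with hc1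
  refine ⟨1 / r + T ^ r * T + c1 * T ^ r, by positivity, fun t ht => ?_⟩
  obtain ⟨ht0, htT⟩ := ht
  have e1 : D0 (l * t) = Real.log t +
      (Real.log (l / (2 * Real.pi)) + 2 * Real.eulerMascheroniConstant) := by
    unfold D0
    rw [show l * t / (2 * Real.pi) = t * (l / (2 * Real.pi)) by ring,
      Real.log_mul ht0.ne' (by positivity)]
    ring
  have h1 : |D0 (l * t)| ≤ |Real.log t| + c1 := by rw [e1]; exact abs_add_le _ _
  have h2 : t ^ r ≤ T ^ r := Real.rpow_le_rpow ht0.le htT hr.le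
  have h3 : |Real.log t| * t ^ r ≤ 1 / r + T ^ r * T := by
    rcases le_total t 1 with h | h
    · have h4 := Real.abs_log_mul_self_rpow_lt t r ht0 h hr
      rw [abs_mul, abs_of_pos (Real.rpow_pos_of_pos ht0 r)] at h4
      have : 0 ≤ T ^ r * T := by positivity
      linarith
    · have h4 : |Real.log t| ≤ T := by
        rw [abs_of_nonneg (Real.log_nonneg h)]
        exact ((Real.log_le_self ht0.le)).trans htT
      have h5 : |Real.log t| * t ^ r ≤ T * T ^ r := mul_le_mul h4 h2 (by positivity) hT.le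
      have : 0 ≤ 1 / r := by positivity
      linarith
  have h5 : 0 < t ^ r := Real.rpow_pos_of_pos ht0 r
  have h6 : 0 ≤ c1 := abs_nonneg _
  rw [Real.rpow_neg ht0.le, ← div_eq_mul_inv, le_div_iff₀ h5]
  calc |D0 (l * t)| * t ^ r ≤ (|Real.log t| + c1) * t ^ r := by gcongr
    _ = |Real.log t| * t ^ r + c1 * t ^ r := by ring
    _ ≤ (1 / r + T ^ r * T) + c1 * T ^ r := by gcongr
    _ = _ := by ring

theorem measurable_D0 : Measurable D0 := by
  unfold D0
  exact (Real.measurable_log.comp (measurable_id.div_const _)).add_const _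

theorem memLp_D0 {k : ℕ} (l : Fin k → ℝ) (hl : ∀ j, 0 < l j) (T : ℝ) (hT : 0 < T) :
    MemLp (fun t => ∏ j, D0 (l j * t)) 2 (volume.restrict (Ioc 0 T)) := by
  set r : ℝ := 1 / (4 * (k + 1)) with hr
  have hr0 : 0 < r := by positivity
  choose C hC0 hC using fun j => D0_bound (l j) T r (hl j) hT hr0
  have hint : MemLp (fun t : ℝ => (∏ j, C j) * (t ^ (-r)) ^ k) 2 (volume.restrict (Ioc 0 T)) := by
    refine MemLp.const_mul ?_ _
    have hm : AEStronglyMeasurable (fun t : ℝ => (t ^ (-r)) ^ k) (volume.restrict (Ioc 0 T)) :=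
      ((measurable_id.pow_const (-r)).pow_const k).aestronglyMeasurable
    rw [memLp_two_iff_integrable_sq hm]
    have h1 : IntegrableOn (fun t : ℝ => t ^ (-(r * (2 * k)))) (Ioc 0 T) := by
      rw [← intervalIntegrable_iff_integrableOn_Ioc_of_le hT.le]
      refine intervalIntegral.intervalIntegrable_rpow' ?_
      have : r * (2 * k) < 1 := by
        rw [hr, div_mul_eq_mul_div, one_mul, div_lt_one (by positivity)]
        linarith [(Nat.cast_nonneg k : (0 : ℝ) ≤ k)]
      linarith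
    refine (integrableOn_congr_fun (fun t ht => ?_) measurableSet_Ioc).mp h1
    show t ^ (-(r * (2 * k))) = ((t ^ (-r)) ^ k) ^ 2
    rw [← pow_mul, ← Real.rpow_natCast (t ^ (-r)), ← Real.rpow_mul ht.1.le]
    congr 1
    push_cast
    ring
  refine hint.mono' ?_ ?_
  · refine Measurable.aestronglyMeasurable ?_
    exact Finset.measurable_prod _ fun j _ => measurable_D0.comp (measurable_id.const_mul (l j))
  · refine (ae_restrict_iff' measurableSet_Ioc).mpr (Eventually.of_forall fun t ht => ?_)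
    rw [Real.norm_eq_abs, Finset.abs_prod]
    calc ∏ j, |D0 (l j * t)| ≤ ∏ j, C j * t ^ (-r) :=
          Finset.prod_le_prod (fun j _ => abs_nonneg _) fun j _ => hC j t ht
      _ = _ := by rw [Finset.prod_mul_distrib]; simp

theorem memLp_F {F : ℝ → ℂ} (hF : Gr F) (T : ℝ) : MemLp F 2 (volume.restrict (Ioc 0 T)) := by
  obtain ⟨hm, h⟩ := hF
  obtain ⟨C, hC, hb⟩ := h 1 one_pos
  refine ⟨hm.aestronglyMeasurable, ?_⟩
  rw [eLpNorm_lt_top_iff_lintegral_rpow_enorm_lt_top (by norm_num) (by norm_num)]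
  have h1 : ∫⁻ t in Ioc 0 T, ‖F t‖ₑ ^ (2 : ENNReal).toReal ≤
      ∫⁻ t in Ioc 0 (max 1 T), ‖F t‖ₑ ^ 2 := by
    simp only [ENNReal.toReal_ofNat, ENNReal.rpow_ofNat]
    exact lintegral_mono_set (Ioc_subset_Ioc_right (le_max_right _ _))
  exact lt_of_le_of_lt (h1.trans (hb _ (le_max_left _ _))) ENNReal.ofReal_lt_top

theorem key {F : ℝ → ℂ} (hF : Gr F) (T : ℝ) (g : ℝ → ℝ)
    (hg : MemLp g 2 (volume.restrict (Ioc 0 T))) :
    IntegrableOn (fun t => F t * ((g t : ℝ) : ℂ)) (Ioc 0 T) :=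
  (memLp_F hF T).integrable_mul hg.ofReal

theorem t_INT (h : S_CRU) : S_INT := by
  obtain ⟨-, -, -, hc, -⟩ := h
  intro k F hF l hl T
  rcases le_or_gt T 0 with hT | hT
  · rw [Ioc_eq_empty (not_lt.mpr hT)]
    exact ⟨integrableOn_empty, integrableOn_empty⟩
  refine ⟨key hF T _ ?_, key hF T _ (memLp_D0 l hl T hT)⟩
  have hcp : Continuous (fun t : ℝ => ∏ j, ff (l j * t)) :=
    continuous_finsetProd _ fun j _ => hc.comp (continuous_const.mul continuous_id)
  obtain ⟨B, hB⟩ := (isCompact_Icc.image_of_continuousOn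
    (hcp.continuousOn (s := Icc 0 T))).isBounded.exists_norm_le
  refine MemLp.mono' (g := fun _ => B) (memLp_const B) hcp.aestronglyMeasurable ?_
  exact (ae_restrict_iff' measurableSet_Ioc).mpr (Eventually.of_forall fun t ht =>
    hB _ ⟨t, ⟨ht.1.le, ht.2⟩, rfl⟩)

end Pool.Agent.U941.GZ
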